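import Pool.Agent.H181.DsE

/-!
# MP_fd85b0_pr, Q1: stabilization at the third-moment endpoint

On every infinite connected graph of bounded degree, i.i.d. masses with mean `μ ∈ [-∞, 1)` and
`E (σ⁺)^3 < ∞` stabilize almost surely; moreover `sup_v E u_∞(v) < ∞`.

`topple G σ n = (u_n, σ_n)` is the parallel toppling of the problem file.
-/

open MeasureTheory ProbabilityTheory

namespace Pool.Agent.Results.MP_fd85b0_pr.ThirdMomentStabilization

open Pool.Agent.H181.DS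

theorem result {V : Type*} (G : SimpleGraph V) [G.LocallyFinite] [Infinite V] (hc : G.Connected)
    (D : ℕ) (hD : ∀ v, G.degree v ≤ D)
    {Ω : Type*} [MeasurableSpace Ω] (P : Measure Ω) [IsProbabilityMeasure P]
    (σ : V → Ω → ℝ) (hm : ∀ v, Measurable (σ v)) (hindep : iIndepFun σ P)
    (hident : ∀ v w, IdentDistrib (σ v) (σ w) P P)
    (hmom : ∀ v, ∫⁻ ω, ENNReal.ofReal (σ v ω) ^ 3 ∂P < ⊤)
    (hmean : ∀ v, ∫⁻ ω, ENNReal.ofReal (σ v ω) ∂P < 1 + ∫⁻ ω, ENNReal.ofReal (-σ v ω) ∂P) :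
    (∃ C : ℝ, ∀ v, ∫⁻ ω, ⨆ n, ENNReal.ofReal ((topple G (fun w => σ w ω) n).1 v) ∂P ≤
      ENNReal.ofReal C) ∧
    ∀ᵐ ω ∂P, ∀ v, BddAbove (Set.range fun n => (topple G (fun w => σ w ω) n).1 v) :=
  stabilizes G hc D hD σ hm hindep hident hmom hmean

end Pool.Agent.Results.MP_fd85b0_pr.ThirdMomentStabilization
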